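import Pool.Agent.W401.Cheb.Main
import Pool.Agent.Helper923.PNT

/-!
# Primes modulo which a given polynomial has no root, in short intervals

If the monic polynomial `h ∈ ℤ[X]` has no root modulo one prime, then for every `ε > 0` and all large `x`
there is a prime `p ∈ (x, (1+ε)x]` modulo which `h` has no root.
-/

set_option autoImplicit false

namespace Pool.Agent.TH609.E3.Z1

open NumberField Polynomial Pool.Agent.W401.Cheb Filter Topology

noncomputable section

section Field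

variable {L : Type} [Field L] [NumberField L]

lemma lift_ms (m : Multiset L) (hm : ∀ b ∈ m, IsIntegral ℤ b) :
    ∃ m' : Multiset (𝓞 L), m'.map (algebraMap (𝓞 L) L) = m := by
  induction m using Multiset.induction with
  | empty => exact ⟨0, rfl⟩
  | cons a m ih =>
    obtain ⟨m', h'⟩ := ih fun b hb => hm b (Multiset.mem_cons_of_mem hb)
    have ha : IsIntegral ℤ a := hm a (Multiset.mem_cons_self a m)
    let a' : 𝓞 L := ⟨a, ha⟩
    refine ⟨a' ::ₘ m', ?_⟩
    rw [Multiset.map_cons, h']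
    rfl

lemma factor {h : ℤ[X]} (hm : h.Monic) (hs : (h.map (algebraMap ℤ L)).Splits) :
    ∃ m : Multiset (𝓞 L), h.map (algebraMap ℤ (𝓞 L)) = (m.map fun b => X - C b).prod := by
  have hroots := hs.eq_prod_roots
  have hint : ∀ b ∈ (h.map (algebraMap ℤ L)).roots, IsIntegral ℤ b := by
    intro b hb
    refine ⟨h, hm, ?_⟩
    have h1 := Polynomial.isRoot_of_mem_roots hb
    rw [Polynomial.IsRoot.def, Polynomial.eval_map] at h1
    exact h1
  obtain ⟨m, hm'⟩ := lift_ms _ hint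
  refine ⟨m, ?_⟩
  apply Polynomial.map_injective (algebraMap (𝓞 L) L) RingOfIntegers.coe_injective
  rw [Polynomial.map_map, Polynomial.map_multiset_prod, Multiset.map_map]
  have e : (algebraMap (𝓞 L) L).comp (algebraMap ℤ (𝓞 L)) = algebraMap ℤ L := RingHom.ext_int _ _
  have hl : (h.map (algebraMap ℤ L)).leadingCoeff = 1 := (hm.map _).leadingCoeff
  rw [e]
  rw [hl, Polynomial.C_1, one_mul, ← hm', Multiset.map_map] at hroots
  rw [hroots]
  congr 1
  apply Multiset.map_congr rfl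
  intro b _
  simp

/-- an integer root modulo the kernel of `φ` is the image of a root -/
lemma root_of {h : ℤ[X]} {m : Multiset (𝓞 L)}
    (hf : h.map (algebraMap ℤ (𝓞 L)) = (m.map fun b => X - C b).prod) {k : Type} [Field k]
    (φ : 𝓞 L →+* k) (s : ℤ) (hs : ((h.eval s : ℤ) : k) = 0) : ∃ b ∈ m, φ b = (s : k) := by
  have h1 : ((h.eval s : ℤ) : 𝓞 L) = (m.map fun b => (s : 𝓞 L) - b).prod := by
    have h2 : (h.map (algebraMap ℤ (𝓞 L))).eval (s : 𝓞 L) =
        ((m.map fun b => X - C b).prod : (𝓞 L)[X]).eval (s : 𝓞 L) := by rw [hf]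
    rw [Polynomial.eval_map, Polynomial.eval_multiset_prod, Multiset.map_map] at h2
    have h3 : Polynomial.eval₂ (algebraMap ℤ (𝓞 L)) (s : 𝓞 L) h = ((h.eval s : ℤ) : 𝓞 L) := by
      have := Polynomial.eval₂_at_apply (p := h) (algebraMap ℤ (𝓞 L)) s
      simpa using this
    rw [h3] at h2
    rw [h2]
    congr 1
    apply Multiset.map_congr rfl
    intro b _
    simp
  have h4 := congrArg φ h1
  rw [map_intCast, hs, map_multiset_prod, Multiset.map_map, eq_comm, Multiset.prod_eq_zero_iff,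
    Multiset.mem_map] at h4
  obtain ⟨b, hb, hb2⟩ := h4
  refine ⟨b, hb, ?_⟩
  simp only [Function.comp, map_sub, map_intCast] at hb2
  exact (sub_eq_zero.1 hb2).symm

lemma root_eval {h : ℤ[X]} {m : Multiset (𝓞 L)}
    (hf : h.map (algebraMap ℤ (𝓞 L)) = (m.map fun b => X - C b).prod) {b : 𝓞 L} (hb : b ∈ m) :
    Polynomial.eval₂ (algebraMap ℤ (𝓞 L)) b h = 0 := by
  rw [← Polynomial.eval_map, hf, Polynomial.eval_multiset_prod, Multiset.map_map,
    Multiset.prod_eq_zero_iff, Multiset.mem_map]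
  exact ⟨b, hb, by simp⟩

variable [IsGalois ℚ L]

lemma hinvZ (b : 𝓞 L) (hb : ∀ σ : Gal(L/ℚ), σ • b = b) : ∃ n : ℤ, (n : 𝓞 L) = b := by
  have hb1 : ∀ σ : Gal(L/ℚ), σ (b : L) = (b : L) := fun σ =>
    congrArg (algebraMap (𝓞 L) L) (hb σ)
  have hb2 : (b : L) ∈ (⊥ : IntermediateField ℚ L) :=
    (IsGalois.mem_bot_iff_fixed (F := ℚ) (E := L) (b : L)).mpr hb1
  obtain ⟨q, hq⟩ := IntermediateField.mem_bot.mp hb2
  have hint : IsIntegral ℤ q := by
    rw [← isIntegral_algebraMap_iff (algebraMap ℚ L).injective, hq]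
    exact b.2
  obtain ⟨n, hn⟩ := IsIntegrallyClosed.isIntegral_iff.mp hint
  refine ⟨n, ?_⟩
  apply RingOfIntegers.ext
  rw [← hq, ← hn]
  simp

/-- an element of the Galois group without fixed root -/
lemma exists_g {h : ℤ[X]} {m : Multiset (𝓞 L)}
    (hf : h.map (algebraMap ℤ (𝓞 L)) = (m.map fun b => X - C b).prod) (p : ℕ) [Fact p.Prime]
    (hp : ∀ s : ZMod p, Polynomial.eval₂ (Int.castRingHom (ZMod p)) s h ≠ 0) :
    ∃ g : Gal(L/ℚ), ∀ b ∈ m, g • b ≠ b := by
  set k := AlgebraicClosure (ZMod p) with hk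
  have : CharP k p := charP_of_injective_algebraMap (algebraMap (ZMod p) k).injective p
  obtain ⟨f, -⟩ := W54.ChTor.exists_ext (A := ℤ) (B := 𝓞 L) (RingHom.injective_int _) p
    (Int.castRingHom (ZMod p))
  obtain ⟨g, hg⟩ := W54.ChTor.trans (H := Gal(L/ℚ)) f ((frobenius k p).comp f) (fun b hb => by
    obtain ⟨n, rfl⟩ := hinvZ b hb
    rw [map_intCast, map_intCast])
  refine ⟨g, fun b hb hgb => ?_⟩
  have h1 := hg b
  rw [hgb, RingHom.comp_apply, frobenius_def] at h1
  obtain ⟨z, hz⟩ := W54.ChTor.frob_fixed p (f b) h1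
  apply hp z
  apply (algebraMap (ZMod p) k).injective
  rw [map_zero, Polynomial.hom_eval₂, hz]
  have e : (algebraMap (ZMod p) k).comp (Int.castRingHom (ZMod p)) = f.comp (algebraMap ℤ (𝓞 L)) :=
    RingHom.ext_int _ _
  rw [e, ← Polynomial.hom_eval₂, root_eval hf hb, map_zero]

/-- at almost all primes at which `g` is a Frobenius element there is no root -/
lemma no_root {h : ℤ[X]} {m : Multiset (𝓞 L)}
    (hf : h.map (algebraMap ℤ (𝓞 L)) = (m.map fun b => X - C b).prod) {g : Gal(L/ℚ)}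
    (hg : ∀ b ∈ m, g • b ≠ b) : ∃ D : ℕ, 0 < D ∧ ∀ p : ℕ, p.Prime → ¬ p ∣ D → xp L g p ≠ 0 →
      ∀ s : ℤ, ¬ (p : ℤ) ∣ h.eval s := by
  classical
  refine ⟨∏ b ∈ m.toFinset, (Algebra.norm ℤ (g • b - b)).natAbs, ?_, ?_⟩
  · refine Finset.prod_pos fun b hb => ?_
    rw [Int.natAbs_pos, ne_eq, Algebra.norm_eq_zero_iff, sub_eq_zero]
    exact hg b (Multiset.mem_toFinset.1 hb)
  intro p hp hpD hx s hs
  have : Fact p.Prime := ⟨hp⟩
  set k := AlgebraicClosure (ZMod p) with hk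
  have : CharP k p := charP_of_injective_algebraMap (algebraMap (ZMod p) k).injective p
  unfold xp at hx
  rw [dif_pos hp] at hx
  obtain ⟨⟨φ, hφ⟩⟩ := (Nat.card_ne_zero.1 hx).1
  have hs0 : ((h.eval s : ℤ) : k) = 0 := (CharP.intCast_eq_zero_iff k p _).2 hs
  obtain ⟨b, hb, hb2⟩ := root_of hf φ s hs0
  have h1 : φ (g • b - b) = 0 := by
    rw [map_sub, hφ b, hb2]
    have h2 : (s : k) ^ p = s := by
      have := map_intCast (frobenius k p) s
      rwa [frobenius_def] at this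
    rw [h2, sub_self]
  have h2 := W54.ChTor.norm_mem _ φ h1
  rw [CharP.cast_eq_zero_iff k p] at h2
  exact hpD (h2.trans (Finset.dvd_prod_of_mem (fun b => (Algebra.norm ℤ (g • b - b)).natAbs)
    (Multiset.mem_toFinset.2 hb)))

/-- short intervals -/
lemma short (g : Gal(L/ℚ)) (ε : ℝ) (hε : 0 < ε) : ∃ L0 : ℝ, ∀ x : ℝ, L0 ≤ x →
    ∃ p : ℕ, p.Prime ∧ xp L g p ≠ 0 ∧ x < p ∧ (p : ℝ) ≤ (1 + ε) * x := by
  set A : ℕ → ℝ := fun N => ∑ p ∈ pr N, (xp L g p : ℝ) with hA
  have h1 : Tendsto (fun N : ℕ => A N / (Nat.primeCounting N : ℝ)) atTop (𝓝 1) := chebotarev L g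
  have hfl : Tendsto (fun x : ℝ => ⌊x⌋₊) atTop atTop := tendsto_nat_floor_atTop
  have hpi := Pool.Agent.Helper923.PNT.pi_tendsto
  have hB : Tendsto (fun x : ℝ => A ⌊x⌋₊ * Real.log x / x) atTop (𝓝 1) := by
    have h2 := (h1.comp hfl).mul hpi
    rw [one_mul] at h2
    refine h2.congr' ?_
    filter_upwards [eventually_ge_atTop (2 : ℝ)] with x hx
    have h3 : (Nat.primeCounting ⌊x⌋₊ : ℝ) ≠ 0 := by
      have : Nat.primeCounting ⌊x⌋₊ ≠ 0 := by
        rw [Ne, Nat.primeCounting_eq_zero_iff]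
        have : 2 ≤ ⌊x⌋₊ := Nat.le_floor (by exact_mod_cast hx)
        omega
      exact_mod_cast this
    simp only [Function.comp]
    field_simp
  have he1 : (0 : ℝ) < 1 + ε := by linarith
  have hlin : Tendsto (fun x : ℝ => (1 + ε) * x) atTop atTop :=
    tendsto_id.const_mul_atTop he1
  have hB' := hB.comp hlin
  have hlog : Tendsto (fun x : ℝ => Real.log x / Real.log ((1 + ε) * x)) atTop (𝓝 1) := by
    have h4 : Tendsto (fun x : ℝ => 1 / (Real.log (1 + ε) / Real.log x + 1)) atTop (𝓝 (1 / (0 + 1))) := by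
      refine Tendsto.div tendsto_const_nhds ?_ (by norm_num)
      exact (tendsto_const_nhds.div_atTop Real.tendsto_log_atTop).add tendsto_const_nhds
    rw [zero_add, div_one] at h4
    refine h4.congr' ?_
    filter_upwards [eventually_gt_atTop (1 : ℝ)] with x hx
    have hx0 : (0 : ℝ) < x := by linarith
    have hl : 0 < Real.log x := Real.log_pos hx
    have hle : 0 < Real.log (1 + ε) := Real.log_pos (by linarith)
    rw [Real.log_mul he1.ne' hx0.ne']
    field_simp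
  have hT : Tendsto (fun x : ℝ => (1 + ε) * ((Real.log x / Real.log ((1 + ε) * x)) *
      (A ⌊(1 + ε) * x⌋₊ * Real.log ((1 + ε) * x) / ((1 + ε) * x))) - A ⌊x⌋₊ * Real.log x / x) atTop
      (𝓝 ((1 + ε) * (1 * 1) - 1)) :=
    ((hlog.mul hB').const_mul (1 + ε)).sub hB
  have hpos : 0 < (1 + ε) * (1 * 1) - 1 := by linarith
  have hev := (hT.eventually (eventually_gt_nhds hpos)).and (eventually_gt_atTop (1 : ℝ))
  obtain ⟨L0, hL0⟩ := hev.exists_forall_of_atTop
  refine ⟨L0, fun x hx => ?_⟩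
  obtain ⟨h5, hx1⟩ := hL0 x hx
  have hx0 : (0 : ℝ) < x := by linarith
  have hl : 0 < Real.log x := Real.log_pos hx1
  have hl2 : 0 < Real.log ((1 + ε) * x) := Real.log_pos (by nlinarith)
  by_contra hcon
  push Not at hcon
  have hAeq : A ⌊(1 + ε) * x⌋₊ = A ⌊x⌋₊ := by
    simp only [hA]
    symm
    apply Finset.sum_subset
    · intro p hp
      rw [mem_pr] at hp ⊢
      exact ⟨hp.1.trans (Nat.floor_le_floor (by nlinarith)), hp.2⟩
    · intro p hp hp2
      rw [mem_pr] at hp hp2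
      have h6 : ¬ p ≤ ⌊x⌋₊ := fun h => hp2 ⟨h, hp.2⟩
      have h7 : x < p := (Nat.floor_lt hx0.le).1 (not_le.1 h6)
      have h8 : (p : ℝ) ≤ (1 + ε) * x := (Nat.le_floor_iff (by positivity)).1 hp.1
      by_contra h9
      have h10 : xp L g p ≠ 0 := by
        intro h; apply h9; rw [h]; simp
      exact absurd h8 (not_le.2 (hcon p hp.2 h10 h7))
  rw [hAeq] at h5
  have e : (1 + ε) * ((Real.log x / Real.log ((1 + ε) * x)) *
      (A ⌊x⌋₊ * Real.log ((1 + ε) * x) / ((1 + ε) * x))) - A ⌊x⌋₊ * Real.log x / x = 0 := by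
    field_simp
    ring
  rw [e] at h5
  exact lt_irrefl _ h5

end Field

/-- **primes without a root in short intervals** -/
theorem main {h : ℤ[X]} (hm : h.Monic) (p0 : ℕ) [Fact p0.Prime]
    (hp : ∀ s : ZMod p0, Polynomial.eval₂ (Int.castRingHom (ZMod p0)) s h ≠ 0) (ε : ℝ) (hε : 0 < ε)
    (B : ℕ) : ∃ L0 : ℝ, ∀ x : ℝ, L0 ≤ x →
      ∃ p : ℕ, p.Prime ∧ B < p ∧ (∀ s : ℤ, ¬ (p : ℤ) ∣ h.eval s) ∧ x < p ∧ (p : ℝ) ≤ (1 + ε) * x := by
  let F : ℚ[X] := h.map (algebraMap ℤ ℚ)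
  let L : Type := F.SplittingField
  have hc : CharZero L := charZero_of_injective_algebraMap (algebraMap ℚ L).injective
  have hfd : FiniteDimensional ℚ L := inferInstanceAs (FiniteDimensional ℚ F.SplittingField)
  have hnf : NumberField L := ⟨⟩
  have hsp : IsSplittingField ℚ L F := Polynomial.IsSplittingField.splittingField F
  have hno : Normal ℚ L := Normal.of_isSplittingField F
  have hgal : IsGalois ℚ L := isGalois_iff.2 ⟨inferInstance, hno⟩
  have hs : (h.map (algebraMap ℤ L)).Splits := by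
    have h1 := IsSplittingField.splits L F
    rw [Polynomial.map_map] at h1
    have e : (algebraMap ℚ L).comp (algebraMap ℤ ℚ) = algebraMap ℤ L := RingHom.ext_int _ _
    rwa [e] at h1
  obtain ⟨m, hf⟩ := factor (L := L) hm hs
  obtain ⟨g, hg⟩ := exists_g (L := L) hf p0 hp
  obtain ⟨D, hD, hroot⟩ := no_root (L := L) hf hg
  obtain ⟨L0, hL0⟩ := short (L := L) g ε hε
  refine ⟨max L0 (D + B), fun x hx => ?_⟩
  obtain ⟨p, hpp, hx1, hx2, hx3⟩ := hL0 x ((le_max_left _ _).trans hx)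
  have h3 : ((D + B : ℕ) : ℝ) < p := by
    have := (le_max_right L0 ((D : ℝ) + B)).trans hx
    push_cast
    linarith
  have h4 : D + B < p := by exact_mod_cast h3
  refine ⟨p, hpp, by omega, hroot p hpp ?_ hx1, hx2, hx3⟩
  intro hd
  have := Nat.le_of_dvd hD hd
  omega

end

end Pool.Agent.TH609.E3.Z1
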