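import Pool.Agent.TH609.E3.Stm
import Pool.Agent.TH609.E3.Z1.Cheb

/-!
# Good primes in short intervals
-/

set_option autoImplicit false

namespace Pool.Agent.TH609.E3.Z1

open Polynomial Pool.Agent.TH609.E3

noncomputable section

/-- the monic version of the quartic -/
def hP : ℤ[X] := X ^ 4 + C (q4 3) * X ^ 3 + C (q4 2 * q4 4) * X ^ 2 + C (q4 1 * q4 4 ^ 2) * X +
  C (q4 0 * q4 4 ^ 3)

lemma hP_monic : hP.Monic := by
  unfold hP
  monicity!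

lemma hP_eval (t : ℤ) : hP.eval (q4 4 * t) = q4 4 ^ 3 * ∑ i ∈ Finset.range 5, q4 i * t ^ i := by
  unfold hP
  simp only [eval_add, eval_mul, eval_pow, eval_X, eval_C, Finset.sum_range_succ,
    Finset.sum_range_zero]
  ring

lemma red (z r : ℤ) (h : z % 13 = r) : ((z : ℤ) : ZMod 13) = (r : ZMod 13) := by
  rw [← h]
  exact (ZMod.intCast_mod z 13).symm

lemma ev13 (s : ZMod 13) : Polynomial.eval₂ (Int.castRingHom (ZMod 13)) s hP =
    s ^ 4 + ((q4 3 : ℤ) : ZMod 13) * s ^ 3 + ((q4 2 * q4 4 : ℤ) : ZMod 13) * s ^ 2 +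
      ((q4 1 * q4 4 ^ 2 : ℤ) : ZMod 13) * s + ((q4 0 * q4 4 ^ 3 : ℤ) : ZMod 13) := by
  unfold hP
  rw [eval₂_add, eval₂_add, eval₂_add, eval₂_add, eval₂_mul, eval₂_mul, eval₂_mul, eval₂_pow,
    eval₂_pow, eval₂_pow, eval₂_X, eval₂_C, eval₂_C, eval₂_C, eval₂_C]
  rfl

lemma noroot13 (s : ZMod 13) : Polynomial.eval₂ (Int.castRingHom (ZMod 13)) s hP ≠ 0 := by
  rw [ev13]
  have e3 : q4 3 % 13 = 7 := by norm_num [q4]
  have e2 : (q4 2 * q4 4) % 13 = 8 := by norm_num [q4]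
  have e1 : (q4 1 * q4 4 ^ 2) % 13 = 0 := by norm_num [q4]
  have e0 : (q4 0 * q4 4 ^ 3) % 13 = 4 := by norm_num [q4]
  rw [red _ _ e3, red _ _ e2, red _ _ e1, red _ _ e0]
  revert s
  decide

theorem Z1 : StZ1 := by
  intro ε hε
  have : Fact (Nat.Prime 13) := ⟨by norm_num⟩
  obtain ⟨L0, hL0⟩ := main hP_monic 13 noroot13 ε hε 0
  refine ⟨L0, fun x hx => ?_⟩
  obtain ⟨p, hp, -, h1, h2, h3⟩ := hL0 x hx
  refine ⟨p, ⟨hp, fun t ht => h1 (q4 4 * t) ?_⟩, h2, h3⟩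
  rw [hP_eval]
  exact Dvd.dvd.mul_left ht _

end

end Pool.Agent.TH609.E3.Z1
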